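import Pool.Agent.H32.FM1

set_option autoImplicit false

namespace Pool.Agent.Results.MP_01b7fc_pr.MinNotDesc

open Finset Pool.Agent.H32

/-- Jump rate from the word `w` to the word `w'`: the entry at `finRotate n p` swaps with its
cyclic left neighbour (at `p`) at rate `1 / t entry` when the neighbour is larger. -/
noncomputable def rate {n : ℕ} (t : Fin n → ℝ) (w w' : Equiv.Perm (Fin n)) : ℝ :=
  ∑ p, if w (finRotate n p) < w p ∧ w' = w * Equiv.swap p (finRotate n p) then
    1 / t (w (finRotate n p)) else 0

/-- `π` is a stationary probability vector of the chain. -/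
def Stat {n : ℕ} (t : Fin n → ℝ) (π : Equiv.Perm (Fin n) → ℝ) : Prop :=
  (∀ w, 0 ≤ π w) ∧ ∑ w, π w = 1 ∧ ∀ w', ∑ w, π w * rate t w w' = (∑ w, rate t w' w) * π w'

/-- `w` and `w'` have each small entry (label `< k`) at the same position. -/
def SameSmall {n : ℕ} (k : ℕ) (w w' : Equiv.Perm (Fin n)) : Prop :=
  ∀ a, (w a).1 < k ∨ (w' a).1 < k → w a = w' a

/-- The large entries of `w`, read left to right, form a rotation of the descending word. -/
def CycDesc {n : ℕ} (k : ℕ) (w : Equiv.Perm (Fin n)) : Prop :=
  (List.ofFn w).filter (fun x => k ≤ x.1) ~r ((List.finRange n).filter fun x => k ≤ x.1).reverse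

def tb (b c d e : ℕ) : ℕ :=
  (0x74400e8800000000003c6000001c20000000000018fc05a00000000000000000000000000000000000000000001950032a000000000000000000000000000009cc00000000009150000005058000001d100000000000000000000000000000000000001e7a00001176000000039000000000004b780000000000000000000000000016d8805d080000000000000000000000000000000000000000213c488e000000000005f70000002940000000000385800e14000000000000000000000000000000000000000000000000000000000000000000000000000000000000000000074400e8800000000003c6000001c20000000000018fc05a0000000000000000000000000000000000000000000000000000000000000000000000000000000000000000000000000000000000000000000000000000000000005e380bc700000000000000000000000000000000000000000000003fea000000000000024540161f400000000074400000000000000005ea000002f58000000000000000000000001b84000000000000012de0000000000000000000000004f2000001742000000000000000000003bc80e880000000000000000000000000001c1a0000000000a500000000cfc000003850000000000000000000000000000000000000000000000000000000000000000000005a000b4000000000000000000000000000003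7e000000000075c600000147c00000178e000000000000000000005a000b400000000000000000000000000000000000000000000000978000000000000007e900207000000000019500000000000000000000000000000000000000000000000000000000000000000000000000000000000000000000000000000000000000000000000000020200000000004fe4802020000000000000030fc0000000000000000000000000000000000000000000006c6d02f140000000000000000001cc400000252d8000001cc4000000000209400000000000000000000000000010e44067a000000000000000000000000000000000000000000000000000000000000000000000ba000000a0a000000028800000000007648000000000000000000000000000ea160988400000000000000000000ba000000a0a00000000000000000000000096c00000000000000986200000000000000000000000194c00000d6ae0000000000000009000000000002265000900000000000000011d000000000000000000000000000000000000000000000034ffc14e4000000000000000000000000000000000000000000000000000000000000000000000000000000000000000000000000000000000000000000000000000000000012cc00f33000000000012cc0000108ba0000000003d68017b8000000000000000000000000000000000000000000000000000000000000000000000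00000000000000000000028b0092e000000000008dc00000054b00000000004f82021d00000000000000000000000000000000000000000028b0092e00000000000000000000000000020fa0000000000a370000000eb9000004b6b0000000000000000000000000000000000001f8000000230a0000001f800000000001b300000000000000000000000000001557807780000000000000000000000000000000000000000021f001c38000000000021f000001d0100000000006cc0024c000000000000000000000000000000000000000000000000000000000000000000000000000000000000000000000000000000000000000000000000000000000000000000000000000000000000000000000000000 >>> (18 * (b - 1 + 5 * (c - 1) + 25 * (d - 1) + 125 * (e - 1)))) % 2 ^ 18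

def wt (a b c d e f : ℕ) : ℕ :=
  if a = 0 then tb b c d e else if b = 0 then tb c d e f else if c = 0 then tb d e f a else
  if d = 0 then tb e f a b else if e = 0 then tb f a b c else tb a b c d

def rt (x y : ℕ) : ℕ := if y < x then (if y = 3 then 1 else 12) else 0

def ok (a b c d e f : ℕ) : Bool := decide (
    wt b a c d e f * rt b a + wt a c b d e f * rt c b + wt a b d c e f * rt d c +
      wt a b c e d f * rt e d + wt a b c d f e * rt f e + wt f b c d e a * rt a f =
    (rt a b + rt b c + rt c d + rt d e + rt e f + rt f a) * wt a b c d e f ∧ 0 < wt a b c d e f)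

lemma bal : ∀ a b c d e f : Fin 6, [a, b, c, d, e, f].Nodup → ok a b c d e f = true := by
  decide +kernel

lemma fin : ∀ b c d f : Fin 6, [0, b, c, d, 1, f].filter (fun x : Fin 6 => 2 ≤ x.1) ~r [5, 4, 3, 2] →
    543 < wt 0 b c d 1 f := by
  decide +kernel

noncomputable def tt : Fin 6 → ℝ := ![1, 1, 1, 12, 1, 1]

def W (w : Equiv.Perm (Fin 6)) : ℕ := wt (w 0) (w 1) (w 2) (w 3) (w 4) (w 5)

lemma rate_eq (w w' : Equiv.Perm (Fin 6)) : rate tt w w' =
    ∑ p, if w' = w * Equiv.swap p (finRotate 6 p) then (rt (w p) (w (finRotate 6 p)) : ℝ) / 12 else 0 := by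
  refine sum_congr rfl fun p _ => ?_
  generalize w (finRotate 6 p) = y
  by_cases h : y < w p
  · simp only [h, true_and, rt, Fin.lt_def.1 h, if_true]
    fin_cases y <;> simp [tt]
  · simp [h, rt]

lemma W_bal (w : Equiv.Perm (Fin 6)) :
    ∑ v, (W v : ℝ) * rate tt v w = (∑ v, rate tt w v) * W w ∧ 0 < W w := by
  have h := of_decide_eq_true (bal (w 0) (w 1) (w 2) (w 3) (w 4) (w 5) (by simp))
  refine ⟨?_, h.2⟩
  simp only [rate_eq, mul_sum]
  rw [sum_comm, sum_comm (s := (univ : Finset (Equiv.Perm (Fin 6))))]
  simp only [sum_ite_eq', mem_univ, if_true]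
  simp only [mem_univ, if_true, ← mul_inv_eq_iff_eq_mul, mul_ite, mul_zero, sum_ite_eq,
    Equiv.swap_inv, Equiv.Perm.mul_apply, Equiv.swap_apply_left, Equiv.swap_apply_right]
  have h1 := congrArg (Nat.cast (R := ℝ)) h.1
  push_cast at h1
  simp only [Fin.sum_univ_six]
  change (wt (w 1) (w 0) (w 2) (w 3) (w 4) (w 5) : ℝ) * (rt (w 1) (w 0) / 12) +
    wt (w 0) (w 2) (w 1) (w 3) (w 4) (w 5) * (rt (w 2) (w 1) / 12) +
    wt (w 0) (w 1) (w 3) (w 2) (w 4) (w 5) * (rt (w 3) (w 2) / 12) +
    wt (w 0) (w 1) (w 2) (w 4) (w 3) (w 5) * (rt (w 4) (w 3) / 12) +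
    wt (w 0) (w 1) (w 2) (w 3) (w 5) (w 4) * (rt (w 5) (w 4) / 12) +
    wt (w 5) (w 1) (w 2) (w 3) (w 4) (w 0) * (rt (w 0) (w 5) / 12) =
    (rt (w 0) (w 1) / 12 + rt (w 1) (w 2) / 12 + rt (w 2) (w 3) / 12 + rt (w 3) (w 4) / 12 +
      rt (w 4) (w 5) / 12 + rt (w 5) (w 0) / 12) * wt (w 0) (w 1) (w 2) (w 3) (w 4) (w 5)
  linarith

lemma tt_pos (i : Fin 6) : 0 < tt i := by fin_cases i <;> simp [tt]

lemma rate_nonneg (w v : Equiv.Perm (Fin 6)) : 0 ≤ rate tt w v :=
  sum_nonneg fun p _ => by split_ifs <;> simp [(tt_pos _).le]

lemma reach (w : Equiv.Perm (Fin 6)) : Relation.ReflTransGen (fun a b => 0 < rate tt a b) w 1 := by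
  have key : ∀ z, Relation.ReflTransGen (fun a c : Fin 7 → FM.C 5 => ∃ p, c = fun s => FM.sg p (a s))
      (fun s => FM1.lev w s) z → ∃ v, Relation.ReflTransGen (fun a b => 0 < rate tt a b) w v ∧
        z = fun s : Fin 7 => FM1.lev v s := by
    intro z h
    induction h with
    | refl => exact ⟨w, .refl, rfl⟩
    | tail _ h ih =>
      obtain ⟨p, rfl⟩ := h
      obtain ⟨v, h1, rfl⟩ := ih
      refine ⟨FM1.sp p v, ?_, by simp only [FM1.lev_sp]⟩
      unfold FM1.sp
      split_ifs with k
      · refine h1.tail (sum_pos' (fun p _ => by split_ifs <;> simp [(tt_pos _).le]) ⟨p, mem_univ _, ?_⟩)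
        rw [if_pos ⟨k, rfl⟩]
        exact one_div_pos.2 (tt_pos _)
      · exact h1
  obtain ⟨v, h1, h2⟩ := key _ (FM.reach _)
  convert h1
  ext a
  have k1 := congrFun (congrFun h2 a.castSucc) a
  have k2 := congrFun (congrFun h2 a.succ) a
  rw [FM1.cnt_lev _ (Nat.le_of_lt_succ (Fin.is_lt _))] at k1 k2
  simp only [FM1.lev, decide_eq_decide, Fin.val_castSucc, Fin.val_succ] at k1 k2
  simp only [Equiv.Perm.one_apply]
  omega

theorem result : ∃ (n k : ℕ) (t : Fin n → ℝ) (w₀ : Equiv.Perm (Fin n)), 2 ≤ n ∧ k < n ∧
    (∀ i, 0 < t i) ∧ (∃ π, Stat t π) ∧ (∃ w, SameSmall k w w₀ ∧ CycDesc k w) ∧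
    ∀ π, Stat t π → ∀ w, SameSmall k w w₀ → CycDesc k w → π w₀ < π w := by
  have hZ : 0 < ∑ v, (W v : ℝ) := sum_pos (fun v _ => Nat.cast_pos.2 (W_bal v).2) univ_nonempty
  have h1 : Stat tt fun w => W w / ∑ v, (W v : ℝ) := ⟨fun w => by positivity,
    by rw [← sum_div, div_self hZ.ne'], fun w => by
      simp only [div_mul_eq_mul_div, ← sum_div, (W_bal w).1]
      rw [mul_div_assoc]⟩
  refine ⟨6, 2, tt, ⟨![0, 5, 4, 2, 1, 3], ![0, 4, 3, 5, 2, 1], by decide, by decide⟩, by norm_num,
    by norm_num, tt_pos, ⟨_, h1⟩, ⟨⟨![0, 5, 4, 3, 1, 2], ![0, 4, 5, 3, 2, 1], by decide, by decide⟩,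
      by unfold SameSmall; decide, by unfold CycDesc; decide⟩, fun π h w h2 h3 => ?_⟩
  have h4 := Uniq.uniq (rate tt) rate_nonneg _ (fun _ => rfl) (fun w => π w - W w / ∑ v, (W v : ℝ))
    (fun y => by simp only [sub_mul, sum_sub_distrib, h.2.2, h1.2.2, mul_sub])
    (by rw [sum_sub_distrib, h.2.1, h1.2.1, sub_self]) 1 fun x _ => reach x
  rw [sub_eq_zero.1 (h4 _), sub_eq_zero.1 (h4 w)]
  refine div_lt_div_of_pos_right (Nat.cast_lt.2 ?_) hZ
  have e0 : w 0 = 0 := h2 0 (.inr (by decide))
  have e4 : w 4 = 1 := h2 4 (.inr (by decide))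
  have := fin (w 1) (w 2) (w 3) (w 5) (by
    have h5 : [w 0, w 1, w 2, w 3, w 4, w 5].filter (fun x : Fin 6 => 2 ≤ x.1) ~r [5, 4, 3, 2] := h3
    rwa [e0, e4] at h5)
  rw [W, W, e0, e4]
  exact lt_of_eq_of_lt (by decide +kernel) this

end Pool.Agent.Results.MP_01b7fc_pr.MinNotDesc
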